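import Pool.Agent.Helper7.HL.Stmts

/-!
# Row DG
-/

namespace Pool.Agent.Helper59.HL

open Finset MvPolynomial
open Pool.Agent.Helper7.HL Pool.Agent.Helper32.HG

theorem dg_dl_stair {k : ℕ} (j : Fin k) : (dl k j : ℤ) = stair k j := by
  rw [stair_eq]
  unfold dl
  have := j.isLt
  omega

theorem dg_dl_anti (k : ℕ) : Antitone (dl k) := by
  intro i j hij
  unfold dl
  have : i.val ≤ j.val := hij
  omega

theorem dg_trans {k : ℕ} {ρ α β : Fin k → ℤ} (h1 : Dge ρ α) (h2 : Dge α β) : Dge ρ β := by
  intro T
  obtain ⟨S, hS, hs⟩ := h2 T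
  obtain ⟨S', hS', hs'⟩ := h1 S
  exact ⟨S', by omega, hs.trans hs'⟩

theorem dg_perm {k : ℕ} {ρ α : Fin k → ℤ} (σ : Equiv.Perm (Fin k))
    (h : Dge (fun i => ρ (σ i)) α) : Dge ρ α := by
  intro T
  obtain ⟨S, hS, hs⟩ := h T
  refine ⟨S.map σ.toEmbedding, by rw [card_map, hS], ?_⟩
  rw [sum_map]
  exact hs

theorem st_DG : ST_DG := by
  classical
  intro k S _ α l hne
  set lz : Fin k → ℤ := fun i => (l i : ℤ) with hlz
  have hinj : Function.Injective l := by
    intro i j hij
    by_contra hc
    apply hne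
    have h0 : Sd k S lz = 0 := (alt_Sd (n := k) (K := S)).rep lz i j hc (by simp [hlz, hij])
    rw [h0, coeff_zero]
  obtain ⟨σ, hσ⟩ := sort_exists l
  have hst : StrictAnti (l ∘ σ) := hσ.strictAnti_of_injective (hinj.comp σ.injective)
  have hstz : StrictAnti (lz ∘ σ) := by
    intro i j hij
    have := hst hij
    simp only [Function.comp, hlz]
    exact_mod_cast this
  have hne2 : coeff (ex α) (Sd k S (lz ∘ σ)) ≠ 0 := by
    rw [Sd_perm]
    rcases Int.units_eq_one_or (Equiv.Perm.sign σ) with h | h
    · rw [h]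
      simpa using hne
    · rw [h]
      simpa using hne
  constructor
  · intro T
    have hT : T.card ≤ k := by
      have := card_le_univ T
      simpa using this
    refine ⟨(univ.filter (fun i : Fin k => i.val < T.card)).map σ.toEmbedding, ?_, ?_⟩
    · rw [card_map, card_lt _ hT]
    · have h1 := supp_dom T (ex α) (lz ∘ σ) hstz hne2
      have h2 := top_sum (dg_dl_anti k) 1
        ((univ.filter (fun i : Fin k => i.val < T.card)).map σ.toEmbedding)
      rw [card_map, card_lt _ hT] at h2
      have h3 : ((∑ v ∈ (univ.filter (fun i : Fin k => i.val < T.card)).map σ.toEmbedding,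
          dl k v : ℕ) : ℤ) ≤ ((∑ i : Fin k with i.val < T.card, dl k i : ℕ) : ℤ) := by
        exact_mod_cast h2
      push_cast at h3
      rw [sum_sub_distrib] at h1
      rw [sum_sub_distrib]
      have h4 : ∑ i : Fin k with i.val < T.card, (lz ∘ σ) i =
          ∑ v ∈ (univ.filter (fun i : Fin k => i.val < T.card)).map σ.toEmbedding, (l v : ℤ) := by
        rw [sum_map]
        rfl
      have h5 : ∑ i : Fin k with i.val < T.card, stair k i =
          ∑ i : Fin k with i.val < T.card, (dl k i : ℤ) :=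
        sum_congr rfl (fun i _ => (dg_dl_stair i).symm)
      rw [h4, h5] at h1
      simp only [ex_apply] at h1
      push_cast at h1
      linarith
  · have h1 := (supp_card univ (ex α) (fun v hv => absurd (mem_univ v) hv) _ hstz hne2).2
    rw [sum_sub_distrib] at h1
    have h4 : ∑ i, (lz ∘ σ) i = ∑ i, (l i : ℤ) := Equiv.sum_comp σ lz
    have h5 : ∑ i : Fin k, stair k i = ∑ i : Fin k, (dl k i : ℤ) :=
      sum_congr rfl (fun i _ => (dg_dl_stair i).symm)
    rw [h4, h5] at h1
    simp only [ex_apply] at h1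
    push_cast at h1
    linarith

end Pool.Agent.Helper59.HL
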