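import Pool.Agent.Helper59.HL.DG

/-!
# Row SC
-/

namespace Pool.Agent.Helper59.HL

open Finset MvPolynomial
open Pool.Agent.Helper7.HL Pool.Agent.Helper32.HG

theorem sc_perm_one {n : ℕ} {u v : Fin n → ℕ} (hu : StrictAnti u) (hv : StrictAnti v)
    {σ : Equiv.Perm (Fin n)} (h : u = v ∘ σ) : σ = 1 := by
  have hm : StrictMono σ := by
    intro i j hij
    have h1 := hu hij
    rw [h] at h1
    exact hv.lt_iff_gt.1 h1
  have h2 : (σ : Fin n → Fin n) = id := by
    apply (hm.range_inj strictMono_id).1
    rw [Equiv.range_eq_univ]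
    simp
  ext i
  rw [h2]
  rfl

theorem sc_strict {n : ℕ} {μ : Fin n → ℕ} (h : Antitone μ) :
    StrictAnti (fun i => μ i + dl n i) := by
  intro i j hij
  have h1 := h hij.le
  have h2 : dl n j < dl n i := by
    unfold dl
    have h3 : i.val < j.val := hij
    have := j.isLt
    omega
  show μ j + dl n j < μ i + dl n i
  omega

theorem st_SC : ST_JT → ST_AL1 → ST_SC := by
  classical
  intro hJT hAL n R _ f hf hd
  obtain ⟨a, ha⟩ := sch_exists (n := n) (K := R) (f := f) ⟨hf, hd⟩
  have key : ∀ μ ∈ parts n, scf n μ f = a μ := by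
    intro μ hμ
    have hμa := ((mem_parts μ).1 hμ).1
    have h1 : Dl n R * f = ∑ ν ∈ parts n, C (a ν) * altp n R (fun i => ν i + dl n i) := by
      rw [ha, mul_sum]
      apply sum_congr rfl
      intro ν _
      rw [smul_eq_C_mul, mul_left_comm]
      congr 1
      rw [schur_eq]
      have h2 : (fun i => (ν i : ℤ) + stair n i) = fun i => ((ν i + dl n i : ℕ) : ℤ) := by
        funext i
        rw [← dg_dl_stair]
        push_cast
        rfl
      rw [h2]
      exact hJT n R (fun i => ν i + dl n i)
    unfold scf
    rw [h1, coeff_sum, sum_eq_single_of_mem μ hμ]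
    · rw [coeff_C_mul, (hAL n R).1, sum_eq_single (1 : Equiv.Perm (Fin n))]
      · rw [if_pos (by funext i; rfl)]
        simp
      · intro σ _ hσ
        rw [if_neg]
        intro h3
        exact hσ (sc_perm_one (sc_strict hμa) (sc_strict hμa) h3)
      · intro h3
        exact absurd (mem_univ _) h3
    · intro ν hν hne
      have hνa := ((mem_parts ν).1 hν).1
      rw [coeff_C_mul, (hAL n R).1, sum_eq_zero, mul_zero]
      intro σ _
      rw [if_neg]
      intro h3
      have h4 := sc_perm_one (sc_strict hμa) (sc_strict hνa) h3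
      apply hne
      rw [h4] at h3
      funext i
      have h5 := congrFun h3 i
      simp only [Function.comp, Equiv.Perm.one_apply] at h5
      omega
  conv_lhs => rw [ha]
  apply sum_congr rfl
  intro μ hμ
  rw [key μ hμ]

end Pool.Agent.Helper59.HL
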