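import Pool.Agent.Helper59.HL.DG

/-!
# Row SD
-/

namespace Pool.Agent.Helper59.HL

open Finset MvPolynomial
open Pool.Agent.Helper7.HL Pool.Agent.Helper32.HG

theorem st_SD : ST_AL1 → ST_PD → ST_SD := by
  classical
  intro hAL hPD n R _ f lam μ hμ hf hne
  unfold scf at hne
  rw [(hAL n R).2.2.2] at hne
  obtain ⟨σ, _, hσ⟩ := exists_ne_zero_of_sum_ne_zero hne
  have hc : ∀ i, dl n (σ i) ≤ μ i + dl n i := by
    by_contra hc
    rw [if_neg hc] at hσ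
    exact hσ rfl
  rw [if_pos hc] at hσ
  have hγ : coeff (ex (fun i => μ i + dl n i - dl n (σ i))) f ≠ 0 := by
    intro h0
    apply hσ
    rw [h0, mul_zero]
  have h1 := hf _ hγ
  refine dg_trans h1 ?_
  have h2 := (hPD n μ σ⁻¹ hμ).1
  have h3 : Dge (fun i => ((μ (σ⁻¹ i) + dl n (σ⁻¹ i) - dl n (σ (σ⁻¹ i)) : ℕ) : ℤ))
      (fun i => (μ i : ℤ)) := by
    have h4 : (fun i => ((μ (σ⁻¹ i) + dl n (σ⁻¹ i) - dl n (σ (σ⁻¹ i)) : ℕ) : ℤ)) =
        fun i => (μ (σ⁻¹ i) : ℤ) + dl n (σ⁻¹ i) - dl n i := by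
      funext i
      have h5 := hc (σ⁻¹ i)
      have h6 : σ (σ⁻¹ i) = i := Equiv.apply_symm_apply σ i
      rw [h6] at h5 ⊢
      omega
    rw [h4]
    exact h2
  exact dg_perm (ρ := fun i => ((μ i + dl n i - dl n (σ i) : ℕ) : ℤ)) σ⁻¹ h3

end Pool.Agent.Helper59.HL
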